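import Pool.Agent.H234.Sep.Polar

set_option autoImplicit false

/-!
The linear form of the covering bound for almost symmetric bodies.
-/

open MeasureTheory Module Set Real
open scoped Pointwise InnerProductSpace

namespace Pool.Agent.H234.Sep

open Pool.Agent.H234.Cov

theorem vol_symm_ge (d : ℕ) (A : Set (EuclideanSpace ℝ (Fin d))) (hA : Convex ℝ A)
    (hAc : IsCompact A) (hAi : (interior A).Nonempty) (c : EuclideanSpace ℝ (Fin d))
    (η : ℝ) (hη : 0 ≤ η) (h : ∀ x ∈ A, c - (1 / (1 + η)) • (x - c) ∈ A) :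
    volume.real A ≤ (1 + η) ^ d * volume.real (A ∩ {x | (2 : ℝ) • c - x ∈ A}) := by
  have hfr : finrank ℝ (EuclideanSpace ℝ (Fin d)) = d := by simp
  have hη1 : 0 < 1 + η := by linarith
  have hη2 : 0 < 2 + η := by linarith
  have hRclosed : IsClosed {x : EuclideanSpace ℝ (Fin d) | (2 : ℝ) • c - x ∈ A} :=
    hAc.isClosed.preimage (f := fun x => (2 : ℝ) • c - x) (by fun_prop)
  have hLc : IsCompact (A ∩ {x | (2 : ℝ) • c - x ∈ A}) := hAc.inter_right hRclosed
  -- the point `c` is in `A`
  have hc : c ∈ A := by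
    obtain ⟨x, hx⟩ := hAi
    have hx := interior_subset hx
    have h1 := hA (h x hx) hx (a := (1 + η) / (2 + η)) (b := 1 / (2 + η)) (by positivity)
      (by positivity) (by field_simp; ring)
    have e : ((1 + η) / (2 + η)) • (c - (1 / (1 + η)) • (x - c)) + (1 / (2 + η)) • x = c := by
      rw [smul_sub, smul_smul]
      have e1 : (1 + η) / (2 + η) * (1 / (1 + η)) = 1 / (2 + η) := by field_simp
      rw [e1, smul_sub]
      have e2 : ((1 + η) / (2 + η)) • c - ((1 / (2 + η)) • x - (1 / (2 + η)) • c) +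
          (1 / (2 + η)) • x = ((1 + η) / (2 + η) + 1 / (2 + η)) • c := by
        rw [add_smul]; abel
      rw [e2]
      have e3 : (1 + η) / (2 + η) + 1 / (2 + η) = 1 := by field_simp; ring
      rw [e3, one_smul]
    rwa [e] at h1
  have hsub : (fun x => (η / (1 + η)) • c + x) '' ((1 / (1 + η)) • A) ⊆
      A ∩ {x | (2 : ℝ) • c - x ∈ A} := by
    rintro _ ⟨_, ⟨x, hx, rfl⟩, rfl⟩
    constructor
    · exact hA hc hx (by positivity) (by positivity) (by field_simp; ring)
    · have h1 := h x hx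
      have e : (2 : ℝ) • c - ((η / (1 + η)) • c + (1 / (1 + η)) • x) =
          c - (1 / (1 + η)) • (x - c) := by
        have e1 : (η / (1 + η)) • c = c - (1 / (1 + η)) • c := by
          have : η / (1 + η) = 1 - 1 / (1 + η) := by field_simp; ring
          rw [this, sub_smul, one_smul]
        rw [e1, two_smul, smul_sub]
        abel
      show (2 : ℝ) • c - ((η / (1 + η)) • c + (1 / (1 + η)) • x) ∈ A
      rw [e]
      exact h1
  have hvol : (1 / (1 + η)) ^ d * volume.real A ≤
      volume.real (A ∩ {x | (2 : ℝ) • c - x ∈ A}) := by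
    have h1 : volume.real ((fun x => (η / (1 + η)) • c + x) '' ((1 / (1 + η)) • A)) =
        (1 / (1 + η)) ^ d * volume.real A := by
      have e : volume.real ((fun x => (η / (1 + η)) • c + x) '' ((1 / (1 + η)) • A)) =
          volume.real ((1 / (1 + η)) • A) := by
        rw [Set.image_add_left, measureReal_def, measure_preimage_add]
        rfl
      rw [e, Pool.Agent.K3h52.HR.vol_smul volume (by positivity), hfr]
    rw [← h1]
    exact measureReal_mono hsub hLc.measure_lt_top.ne
  calc volume.real A = (1 + η) ^ d * ((1 / (1 + η)) ^ d * volume.real A) := by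
        rw [← mul_assoc, ← mul_pow]
        have : (1 + η) * (1 / (1 + η)) = 1 := by field_simp
        rw [this, one_pow, one_mul]
    _ ≤ (1 + η) ^ d * volume.real (A ∩ {x | (2 : ℝ) • c - x ∈ A}) :=
        mul_le_mul_of_nonneg_left hvol (by positivity)

theorem asym_min (d : ℕ) (hd : 3 ≤ d) (A B : Set (EuclideanSpace ℝ (Fin d))) (hA : Convex ℝ A)
    (hAc : IsCompact A) (hAi : (interior A).Nonempty) (hB : Convex ℝ B) (hBc : IsCompact B)
    (hBn : B.Nonempty) (c : EuclideanSpace ℝ (Fin d)) (η : ℝ) (hη : 0 ≤ η)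
    (h : ∀ x ∈ A, c - (1 / (1 + η)) • (x - c) ∈ A) :
    ∃ T : Finset (EuclideanSpace ℝ (Fin d)),
      A + B ⊆ ⋃ t ∈ T, (fun x => t + x) '' interior (A + B) ∧
      (T.card : ℝ) ≤ 2 ^ d * d * min (11 * (1 + η) ^ d) (16 + 2 * log (1 + d * η)) := by
  rcases le_total (11 * (1 + η) ^ d) (16 + 2 * log (1 + d * η)) with h1 | h1
  · rw [min_eq_left h1]
    obtain ⟨T, hT, hcard⟩ := Pool.Agent.K3h52.LF.sym_part d hd A B hA hAc hAi hB hBc hBn c
    refine ⟨T, hT, ?_⟩
    have hv := vol_symm_ge d A hA hAc hAi c η hη h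
    have hA0 : 0 < volume.real A := Pool.Agent.K3h52.TP.real_pos' volume hAc hAi
    have hS : 0 < volume.real (A ∩ {x | (2 : ℝ) • c - x ∈ A}) := by
      by_contra hn
      have h0 : volume.real (A ∩ {x | (2 : ℝ) • c - x ∈ A}) = 0 :=
        le_antisymm (not_lt.mp hn) measureReal_nonneg
      rw [h0, mul_zero] at hv
      linarith
    refine le_of_mul_le_mul_right (hcard.trans ?_) hS
    calc 11 * (d : ℝ) * 2 ^ d * volume.real A
        ≤ 11 * (d : ℝ) * 2 ^ d * ((1 + η) ^ d * volume.real (A ∩ {x | (2 : ℝ) • c - x ∈ A})) :=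
          mul_le_mul_of_nonneg_left hv (by positivity)
      _ = _ := by ring
  · rw [min_eq_right h1]
    exact main_asym d hd A B hA hAc hAi hB hBc hBn c η hη h

/-- The asymmetry of the polar body. -/
theorem pol_asym {d : ℕ} {K : Set (EuclideanSpace ℝ (Fin d))} {o : EuclideanSpace ℝ (Fin d)}
    {s : ℝ} (h : ∀ x ∈ K, o - s • (x - o) ∈ K) :
    ∀ v ∈ Pol K o, (0 : EuclideanSpace ℝ (Fin d)) - s • (v - 0) ∈ Pol K o := by
  intro v hv y hy
  have h1 := hv _ (h y hy)
  have e : o - s • (y - o) - o = - (s • (y - o)) := by abel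
  rw [e, inner_neg_right, real_inner_smul_right] at h1
  rw [zero_sub, sub_zero, inner_neg_left, real_inner_smul_left]
  exact h1

end Pool.Agent.H234.Sep
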